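import Pool.Agent.SGL.StmtsU

set_option autoImplicit false

/-!
# Squad SGL (MP_41797f_co), rows NYE, NYV
-/

namespace Pool.Agent.SGL.H23

open Pool.Agent.SGL Pool.Agent.SGE Pool.Agent.SGP Pool.Agent.SGY Pool.Agent.SGD

section

variable {V : Type} {a c : V} {R : Set V} {h : ℕ} {s ρ : V → ℕ} {A A' : V → V → Prop}
  {f : V → ℝ × ℝ}

theorem low1 (G : GdL a c R s ρ f) (inj : ∀ p ∈ R, ∀ q ∈ R, ρ p = ρ q → p = q)
    (H : ArcL a R s ρ f A) (p q r t : V) (h1 : A p q) (h2 : A r t) (hlt : ρ p < ρ r) :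
    ¬ Xs (f p) (f q) (f r) (f t) := by
  obtain ⟨hp, sp⟩ := H.l p q h1
  obtain ⟨hr, sr⟩ := H.l r t h2
  have hq := H.r p q h1
  have ht := H.r r t h2
  by_cases hc : q = a ∨ ρ r < ρ q
  · have hn := H.n p q r t h1 h2 hlt hc
    by_cases hqa : q = a
    · rcases ht with ht | ⟨_, htR, st, hrt⟩
      · exact com (Or.inr (Or.inr (Or.inr (by rw [hqa, ht]))))
      · exact same_pos (H.m p q h1 r hr sr hlt (Or.inl hqa))
          (H.m p q h1 t htR st (hlt.trans hrt) (Or.inl hqa))
    · have hrq : ρ r < ρ q := hc.resolve_left hqa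
      obtain ⟨hta, htq⟩ := hn.resolve_left hqa
      obtain ⟨_, htR, st, hrt⟩ := ht.resolve_left hta
      obtain ⟨_, hqR, sq, hpq⟩ := hq.resolve_left hqa
      by_cases e : t = q
      · exact com (Or.inr (Or.inr (Or.inr (by rw [e]))))
      · have htq' : ρ t < ρ q := lt_of_le_of_ne htq fun h' => e (inj t htR q hqR h')
        exact same_pos (H.m p q h1 r hr sr hlt (Or.inr hrq))
          (H.m p q h1 t htR st (hlt.trans hrt) (Or.inr htq'))
  · have hqa : q ≠ a := fun h' => hc (Or.inl h')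
    have hqr : ρ q ≤ ρ r := not_lt.1 fun h' => hc (Or.inr h')
    obtain ⟨_, hqR, sq, hpq⟩ := hq.resolve_left hqa
    by_cases e : q = r
    · exact com (Or.inr (Or.inr (Or.inl (by rw [e]))))
    · have hqr' : ρ q < ρ r := lt_of_le_of_ne hqr fun h' => e (inj q hqR r hr h')
      rcases ht with ht | ⟨_, htR, st, hrt⟩
      · rw [ht]
        exact sepx (G.xx p hp r hr hlt) (G.xa p hp) (G.xx q hqR r hr hqr') (G.xa q hqR)
      · exact sepx (G.xx p hp r hr hlt) (G.xx p hp t htR (hlt.trans hrt))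
          (G.xx q hqR r hr hqr') (G.xx q hqR t htR (hqr'.trans hrt))

theorem top1 (G : GdL a c R s ρ f) (inj : ∀ p ∈ R, ∀ q ∈ R, ρ p = ρ q → p = q)
    (H : ArcH a R h s ρ f A) (p q r t : V) (h1 : A p q) (h2 : A r t) (hlt : ρ p < ρ r) :
    ¬ Xs (f p) (f q) (f r) (f t) := by
  obtain ⟨hp, sp⟩ := H.l p q h1
  obtain ⟨hr, sr⟩ := H.l r t h2
  have hq := H.r p q h1
  have ht := H.r r t h2
  by_cases hc : q = a ∨ ρ r < ρ q
  · have hn := H.n p q r t h1 h2 hlt hc
    by_cases hqa : q = a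
    · rcases ht with ht | ⟨_, htR, st, hrt⟩
      · exact com (Or.inr (Or.inr (Or.inr (by rw [hqa, ht]))))
      · exact same_neg (H.m p q h1 r hr sr hlt (Or.inl hqa))
          (H.m p q h1 t htR st (hlt.trans hrt) (Or.inl hqa))
    · have hrq : ρ r < ρ q := hc.resolve_left hqa
      obtain ⟨hta, htq⟩ := hn.resolve_left hqa
      obtain ⟨_, htR, st, hrt⟩ := ht.resolve_left hta
      obtain ⟨_, hqR, sq, hpq⟩ := hq.resolve_left hqa
      by_cases e : t = q
      · exact com (Or.inr (Or.inr (Or.inr (by rw [e]))))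
      · have htq' : ρ t < ρ q := lt_of_le_of_ne htq fun h' => e (inj t htR q hqR h')
        exact same_neg (H.m p q h1 r hr sr hlt (Or.inr hrq))
          (H.m p q h1 t htR st (hlt.trans hrt) (Or.inr htq'))
  · have hqa : q ≠ a := fun h' => hc (Or.inl h')
    have hqr : ρ q ≤ ρ r := not_lt.1 fun h' => hc (Or.inr h')
    obtain ⟨_, hqR, sq, hpq⟩ := hq.resolve_left hqa
    by_cases e : q = r
    · exact com (Or.inr (Or.inr (Or.inl (by rw [e]))))
    · have hqr' : ρ q < ρ r := lt_of_le_of_ne hqr fun h' => e (inj q hqR r hr h')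
      rcases ht with ht | ⟨_, htR, st, hrt⟩
      · rw [ht]
        exact sepx (G.xx p hp r hr hlt) (G.xa p hp) (G.xx q hqR r hr hqr') (G.xa q hqR)
      · exact sepx (G.xx p hp r hr hlt) (G.xx p hp t htR (hlt.trans hrt))
          (G.xx q hqR r hr hqr') (G.xx q hqR t htR (hqr'.trans hrt))

end

/-- **NYE**. -/
theorem nye : NyeStmt := by
  intro V a c R h s ρ A A' f G inj hh HL HH
  refine ⟨?_, ?_, ?_⟩
  · intro p q r t h1 h2
    obtain ⟨hp, sp⟩ := HL.l p q h1
    obtain ⟨hr, sr⟩ := HL.l r t h2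
    rcases lt_trichotomy (ρ p) (ρ r) with hlt | heq | hlt
    · exact low1 G inj HL p q r t h1 h2 hlt
    · exact com (Or.inl (by rw [inj p hp r hr heq]))
    · exact fun hX => low1 G inj HL r t p q h2 h1 hlt (xs_swap hX)
  · intro p q r t h1 h2
    obtain ⟨hp, sp⟩ := HH.l p q h1
    obtain ⟨hr, sr⟩ := HH.l r t h2
    rcases lt_trichotomy (ρ p) (ρ r) with hlt | heq | hlt
    · exact top1 G inj HH p q r t h1 h2 hlt
    · exact com (Or.inl (by rw [inj p hp r hr heq]))
    · exact fun hX => top1 G inj HH r t p q h2 h1 hlt (xs_swap hX)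
  · intro p q r t h1 h2
    obtain ⟨hp, sp⟩ := HL.l p q h1
    obtain ⟨hr, sr⟩ := HH.l r t h2
    have hq := HL.r p q h1
    have ht := HH.r r t h2
    have above : ∀ z ∈ R, s z = h → 0 < o (f p) (f q) (f z) := by
      intro z hz hs
      rcases hq with hq | ⟨_, hqR, sq, hpq⟩
      · have h3 := G.ra p hp z hz (by omega)
        rw [hq, o_rot (f p) (f a) (f z)]
        exact h3
      · exact G.up p hp q hqR z hz (by omega) hpq (by omega)
    rcases ht with ht | ⟨_, htR, st, hrt⟩
    · rcases hq with hq | ⟨_, hqR, sq, hpq⟩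
      · exact com (Or.inr (Or.inr (Or.inr (by rw [hq, ht]))))
      · subst ht
        have h3 : o (f r) (f t) (f p) < 0 := by
          have := G.ra p hp r hr (by omega)
          rw [o_swap]
          linarith
        have h4 : o (f r) (f t) (f q) < 0 := by
          have := G.ra q hqR r hr (by omega)
          rw [o_swap]
          linarith
        exact fun hX => same_neg h3 h4 (xs_swap hX)
    · exact same_pos (above r hr sr) (above t htR st)

end Pool.Agent.SGL.H23
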