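import Pool.Agent.SGL.StmtsU

set_option autoImplicit false

/-!
# Squad SGL (MP_41797f_co), row NYV: no two edges of the second graph cross
-/

namespace Pool.Agent.SGL.H23

open Pool.Agent.SGL Pool.Agent.SGE Pool.Agent.SGP Pool.Agent.SGY Pool.Agent.SGD

/-- **NYV**. -/
theorem nyv (nxv : NxvStmt) (nya : NyaStmt) (nyb : NybStmt) (nyc : NycStmt) (nyd : NydStmt)
    (nye : NyeStmt) : NyvStmt := by
  intro V a c R h s ρ S A A' f G inj mon hh hle HL HH
  have k1 : ∀ p q r t : V, A p q → LE a c R s ρ S r t → ¬ Xs (f p) (f q) (f r) (f t) := by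
    intro p q r t h1 h2
    cases h2 with
    | hh hr ht hs hlt hn => exact nya a c R s ρ A f G inj HL p q r t h1 hr ht (Or.inl ⟨hs, hlt, hn⟩)
    | uu hr ht hs hS => exact nya a c R s ρ A f G inj HL p q r t h1 hr ht (Or.inr hs)
    | cc hc ht hs hn => exact nyb a c R s ρ A f G inj HL p q _ t h1 hc (Or.inl ⟨rfl, ht, hs⟩)
    | aa hr hn => exact nyb a c R s ρ A f G inj HL p q r _ h1 hr (Or.inr ⟨rfl, hn⟩)
  have k2 : ∀ p q r t : V, A' p q → LE a c R s ρ S r t → ¬ Xs (f p) (f q) (f r) (f t) := by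
    intro p q r t h1 h2
    cases h2 with
    | hh hr ht hs hlt hn =>
      exact nyc a c R h s ρ A' f G inj hle HH p q r t h1 hr ht (Or.inl ⟨hs, hlt, hn⟩)
    | uu hr ht hs hS => exact nyc a c R h s ρ A' f G inj hle HH p q r t h1 hr ht (Or.inr hs)
    | cc hc ht hs hn =>
      exact nyd a c R h s ρ A' f G inj hle HH p q _ t h1 hc (Or.inl ⟨rfl, ht, hs, hn⟩)
    | aa hr hn => exact nyd a c R h s ρ A' f G inj hle HH p q r _ h1 hr (Or.inr ⟨rfl, hn⟩)
  obtain ⟨e1, e2, e3⟩ := nye a c R h s ρ A A' f G inj hh HL HH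
  intro p q r t h1 h2
  rcases h1 with h1 | h1 | h1
  · rcases h2 with h2 | h2 | h2
    · exact nxv a c R s ρ S f G inj mon p q r t h1 h2
    · exact fun hX => k1 r t p q h2 h1 (xs_swap hX)
    · exact fun hX => k2 r t p q h2 h1 (xs_swap hX)
  · rcases h2 with h2 | h2 | h2
    · exact k1 p q r t h1 h2
    · exact e1 p q r t h1 h2
    · exact e3 p q r t h1 h2
  · rcases h2 with h2 | h2 | h2
    · exact k2 p q r t h1 h2
    · exact fun hX => e3 r t p q h2 h1 (xs_swap hX)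
    · exact e2 p q r t h1 h2

end Pool.Agent.SGL.H23
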